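import Pool.Agent.U737.MN.Stm3
import Pool.Agent.U178.MN.SqBad

/-!
# Project MN, package NotPow: valuations at a totally split prime, exponent `l`
-/

set_option autoImplicit false

open NumberField UniqueFactorizationMonoid

namespace Pool.Agent.U594.MN

open Pool.Agent.U737.MN
open Pool.Agent.U178.MN (v_mono v_pos ram_one)
open Pool.Agent.TH9.J3098 (v v_mul v_prod v_zero)

lemma v_pow {R : Type} [CommRing R] [IsDedekindDomain R] (Q : Ideal R) {I : Ideal R}
    (hI : I ≠ ⊥) (n : ℕ) : v Q (I ^ n) = n * v Q I := by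
  classical
  induction n with
  | zero =>
    have h1 : v Q ((I ^ 0) * (I ^ 0)) = v Q (I ^ 0) + v Q (I ^ 0) :=
      v_mul Q (pow_ne_zero 0 hI) (pow_ne_zero 0 hI)
    simp only [pow_zero, mul_one] at h1 ⊢
    omega
  | succ n ih =>
    rw [pow_succ, v_mul Q (pow_ne_zero n hI) hI, ih]
    ring

theorem t_NotPow : (Pool.Agent.U737.MN.SplDown → Pool.Agent.U737.MN.NotPow) := by
  classical
  intro hdown l K M N _ _ _ _ _ _ _ _ _ _ _ p P α S a hl hps hpat hS ha
  rintro ⟨b, hb⟩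
  obtain ⟨hPp, hαP, hαP2, huniq⟩ := hpat
  obtain ⟨φ₀, hφ₀⟩ := hS
  obtain ⟨hp, hp0, hcard⟩ := hps
  have hPprime : P.IsPrime := hPp.1
  have hPover : P.LiesOver p := hPp.2
  let g : (M →ₐ[K] N) → (𝓞 M →ₐ[𝓞 K] 𝓞 N) := fun φ => RingOfIntegers.mapAlgHom φ
  have hginj : ∀ φ : M →ₐ[K] N, Function.Injective (g φ) := by
    intro φ x y hxy
    apply RingOfIntegers.coe_injective
    have h1 : φ (x : M) = φ (y : M) := congrArg (fun z : 𝓞 N => (z : N)) hxy
    exact φ.toRingHom.injective h1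
  -- the primes over p
  have hmem : ∀ (φ : M →ₐ[K] N) (Q : Ideal (𝓞 N)), Q ∈ p.primesOver (𝓞 N) →
      Q.comap (g φ) ∈ p.primesOver (𝓞 M) := by
    intro φ Q hQ
    have hQ1 : Q.IsPrime := hQ.1
    have hQ2 : Q.LiesOver p := hQ.2
    refine ⟨Ideal.comap_isPrime _ _, ⟨?_⟩⟩
    rw [hQ2.over]
    ext x
    simp only [Ideal.under_def, Ideal.mem_comap]
    rw [AlgHom.commutes]
  -- primes over a prime of M, for an arbitrary embedding
  have hex : ∀ (φ : M →ₐ[K] N) (P' : Ideal (𝓞 M)), P' ∈ p.primesOver (𝓞 M) →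
      ∃ Q ∈ p.primesOver (𝓞 N), Q.comap (g φ) = P' := by
    intro φ P' hP'
    have hP'1 : P'.IsPrime := hP'.1
    let _ : Algebra (𝓞 M) (𝓞 N) := (g φ).toRingHom.toAlgebra
    have : Algebra.IsIntegral (𝓞 M) (𝓞 N) := by
      refine ⟨fun x => ?_⟩
      have h1 : IsIntegral ℤ x := Algebra.IsIntegral.isIntegral x
      exact h1.tower_top
    obtain ⟨Q, -, hQ1, hQ2⟩ := Ideal.exists_ideal_over_prime_of_isIntegral P' (⊥ : Ideal (𝓞 N)) (by
      have h1 : (⊥ : Ideal (𝓞 N)).comap (algebraMap (𝓞 M) (𝓞 N)) = ⊥ :=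
        Ideal.comap_bot_of_injective _ (hginj φ)
      rw [h1]
      exact bot_le)
    have hQ3 : Q.comap (g φ) = P' := hQ2
    refine ⟨Q, ⟨hQ1, ⟨?_⟩⟩, hQ3⟩
    rw [hP'.2.over, ← hQ3]
    ext x
    simp only [Ideal.under_def, Ideal.mem_comap]
    rw [AlgHom.commutes]
  obtain ⟨Q, hQp, hQP⟩ := hex φ₀ P hPp
  have hfin : Nat.card (M →ₐ[K] N) ≤ Module.finrank K M := card_algHom_le_finrank K M N
  have hinj : ∀ φ ψ : M →ₐ[K] N, Q.comap (g φ) = Q.comap (g ψ) → φ = ψ := by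
    let Φ : (M →ₐ[K] N) → p.primesOver (𝓞 M) := fun φ => ⟨Q.comap (g φ), hmem _ _ hQp⟩
    have hsurj : Function.Surjective Φ := by
      rintro ⟨P', hP'⟩
      let ι : M →ₐ[K] N := IsScalarTower.toAlgHom K M N
      obtain ⟨Q', hQ', hQ'P⟩ := hex ι P' hP'
      obtain ⟨σ, hσ⟩ := Ideal.exists_comap_galRestrict_eq (𝓞 K) K N (𝓞 N) hQp hQ'
      refine ⟨σ.toAlgHom.comp ι, Subtype.ext ?_⟩
      change Q.comap (g (σ.toAlgHom.comp ι)) = P'
      rw [← hQ'P, ← hσ]
      ext x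
      simp only [Ideal.mem_comap]
      have h1 : g (σ.toAlgHom.comp ι) x = galRestrict (𝓞 K) K N (𝓞 N) σ (g ι x) := by
        apply RingOfIntegers.coe_injective
        exact (algebraMap_galRestrict_apply (𝓞 K) σ (g ι x)).symm
      rw [h1]
    have hc : Set.ncard (p.primesOver (𝓞 M)) = Module.finrank K M :=
      (hdown K M N ⟨hp, hp0, hcard⟩).2.2
    have hb : Function.Bijective Φ := by
      refine hsurj.bijective_of_nat_card_le ?_
      rw [Nat.card_coe_set_eq, hc]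
      exact hfin
    intro σ τ h
    exact hb.1 (Subtype.ext h)
  have hα : α ≠ 0 := by
    rintro rfl
    exact hαP2 (zero_mem _)
  have hspan : Ideal.span {α} ≠ ⊥ := by
    rw [Ne, Ideal.span_singleton_eq_bot]
    exact hα
  have hmap0 : ∀ (φ : M →ₐ[K] N) (I : Ideal (𝓞 M)), I ≠ ⊥ → I.map (g φ) ≠ ⊥ := by
    intro φ I hI h
    apply hI
    rw [Ideal.map_eq_bot_iff_of_injective (hginj φ)] at h
    exact h
  have hP0 : P ≠ ⊥ := by
    rintro rfl
    exact hα (by simpa using hαP)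
  have hI0 : ∀ φ : M →ₐ[K] N, (Ideal.span {α}).map (g φ) ≠ ⊥ := fun φ => hmap0 φ _ hspan
  -- the valuation at the distinguished embedding
  have hcnt0 : v Q ((Ideal.span {α}).map (g φ₀)) = 1 := by
    obtain ⟨I, hI⟩ : P ∣ Ideal.span {α} :=
      Ideal.dvd_iff_le.mpr ((Ideal.span_singleton_le_iff_mem P).mpr hαP)
    have hI0' : I ≠ ⊥ := by
      rintro rfl
      apply hspan
      rw [hI, Ideal.mul_bot]
    have h1 : ¬ I ≤ P := by
      intro h
      apply hαP2
      have h2 : Ideal.span {α} ≤ P ^ 2 := by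
        rw [hI, pow_two]
        exact Ideal.mul_mono le_rfl h
      exact h2 (Ideal.mem_span_singleton_self α)
    rw [hI, Ideal.map_mul, v_mul _ (hmap0 _ _ hP0) (hmap0 _ _ hI0'),
      v_zero Q (I.map (g φ₀)) (hmap0 _ _ hI0') (by
        rw [Ideal.map_le_iff_le_comap, hQP]
        exact h1), add_zero]
    refine le_antisymm ?_ (v_pos Q hQp.1 (hmap0 _ _ hP0) (by
      rw [Ideal.map_le_iff_le_comap, hQP]))
    have hpmap : p.map (algebraMap (𝓞 K) (𝓞 N)) ≠ ⊥ := by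
      intro h
      apply hp0
      rwa [Ideal.map_eq_bot_iff_of_injective
        (FaithfulSMul.algebraMap_injective (𝓞 K) (𝓞 N))] at h
    refine (v_mono Q hpmap ?_).trans (ram_one ⟨hp, hp0, hcard⟩ hQp).le
    rw [Ideal.map_le_iff_le_comap]
    intro x hx
    rw [Ideal.mem_comap, ← (g φ₀).commutes x]
    refine Ideal.mem_map_of_mem (g φ₀) ?_
    have h2 : x ∈ P.under (𝓞 K) := by
      rw [← hPover.over]
      exact hx
    exact h2
  have hcnt : ∀ φ : M →ₐ[K] N, v Q ((Ideal.span {α}).map (g φ)) = if φ = φ₀ then 1 else 0 := by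
    intro φ
    by_cases hφ : φ = φ₀
    · rw [if_pos hφ, hφ]
      exact hcnt0
    · rw [if_neg hφ]
      refine v_zero _ _ (hI0 _) ?_
      intro h
      rw [Ideal.map_le_iff_le_comap] at h
      have hne : Q.comap (g φ) ≠ P := fun h3 => hφ (hinj _ _ (h3.trans hQP.symm))
      exact huniq _ (hmem _ _ hQp) hne (h (Ideal.mem_span_singleton_self α))
  -- the product is an `l`-th power
  have hbint : IsIntegral ℤ b := by
    have h1 : IsIntegral ℤ (b ^ l) := by
      rw [hb]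
      refine IsIntegral.prod _ fun φ _ => ?_
      exact (map_isIntegral_int φ.toRingHom α.2).pow _
    exact IsIntegral.of_pow hl.pos h1
  obtain ⟨β, hβ⟩ : ∃ β : 𝓞 N, (β : N) = b := ⟨⟨b, hbint⟩, rfl⟩
  have hprod2 : ∏ φ ∈ S, (g φ α) ^ (a φ) = β ^ l := by
    apply RingOfIntegers.coe_injective
    rw [map_prod, map_pow, show algebraMap (𝓞 N) N β = b from hβ, hb]
    refine Finset.prod_congr rfl fun φ _ => ?_
    rw [map_pow]
    rfl
  have h1 : ∏ φ ∈ S, ((Ideal.span {α}).map (g φ)) ^ (a φ) = Ideal.span {β} ^ l := by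
    rw [Ideal.span_singleton_pow, ← hprod2, ← Ideal.prod_span_singleton]
    refine Finset.prod_congr rfl fun φ _ => ?_
    rw [Ideal.map_span, Set.image_singleton, Ideal.span_singleton_pow]
  have hβ0 : Ideal.span {β} ≠ ⊥ := by
    intro h
    have h4 : ∏ φ ∈ S, ((Ideal.span {α}).map (g φ)) ^ (a φ) ≠ 0 :=
      Finset.prod_ne_zero_iff.mpr fun φ _ => pow_ne_zero _ (hI0 φ)
    rw [h1, h] at h4
    exact h4 (by
      rw [← Ideal.zero_eq_bot]
      exact zero_pow hl.pos.ne')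
  have h2 : v Q (∏ φ ∈ S, ((Ideal.span {α}).map (g φ)) ^ (a φ)) = l * v Q (Ideal.span {β}) := by
    rw [h1, v_pow _ hβ0]
  rw [v_prod _ _ _ (fun φ => pow_ne_zero _ (hI0 φ))] at h2
  have h3 : ∀ φ ∈ S, v Q (((Ideal.span {α}).map (g φ)) ^ (a φ)) = if φ = φ₀ then a φ else 0 := by
    intro φ _
    rw [v_pow _ (hI0 φ), hcnt]
    split_ifs <;> simp
  rw [Finset.sum_congr rfl h3, Finset.sum_ite_eq', if_pos hφ₀] at h2
  exact ha φ₀ hφ₀ ⟨_, h2⟩

end Pool.Agent.U594.MN
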